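import Mathlib
import Pool.Agent.Y827.RO.NarF

/-! The coloured Maynard-Tao theorem with the constant `18 / 5` for the forms `a n + 1`, at almost primes `n`. -/

set_option autoImplicit false

namespace Pool.Agent.J6H13.AP

open Finset Filter
open Pool.Agent.Y827.RO Pool.Agent.Y827.GS

open Classical in
/-- the number of the `n ≤ x` with at most `r` prime factors, all larger than `x ^ (1 / r)`, such that all `a n + 1`,
`a ∈ F`, are prime -/
noncomputable def cntP (r : ℕ) (F : Finset ℕ) (x : ℕ) : ℕ :=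
  ((Icc 1 x).filter (fun n : ℕ => n.primeFactorsList.length ≤ r ∧ (∀ q : ℕ, q.Prime → q ∣ n → x < q ^ r) ∧
    ∀ a ∈ F, (a * n + 1).Prime)).card

theorem cntP_anti {r : ℕ} {F F' : Finset ℕ} (h : F' ⊆ F) (x : ℕ) : cntP r F x ≤ cntP r F' x := by
  classical
  unfold cntP
  apply card_le_card
  intro n hn
  rw [mem_filter] at hn ⊢
  exact ⟨hn.1, hn.2.1, hn.2.2.1, fun f hf => hn.2.2.2 f (h hf)⟩

/-- monotone in `r` -/
theorem cntP_mono {r r' : ℕ} (h : r ≤ r') (F : Finset ℕ) (x : ℕ) : cntP r F x ≤ cntP r' F x := by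
  classical
  unfold cntP
  apply card_le_card
  intro n hn
  rw [mem_filter] at hn ⊢
  refine ⟨hn.1, hn.2.1.trans h, fun q hq hd => ?_, hn.2.2.2⟩
  exact (hn.2.2.1 q hq hd).trans_le (Nat.pow_le_pow_right hq.pos h)

/-- numbers without small prime factors -/
theorem few_factors {x n r : ℕ} (hr : 1 ≤ r) (hx : 1 ≤ x) (hn0 : 1 ≤ n) (hn : n ≤ x)
    (h : ∀ q : ℕ, q.Prime → q ∣ n → x < q ^ r) : n.primeFactorsList.length ≤ r := by
  by_contra hcon
  push Not at hcon
  have h1 : ∀ l : List ℕ, (∀ q ∈ l, x < q ^ r) → l ≠ [] → x ^ l.length < l.prod ^ r := by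
    intro l
    induction l with
    | nil => intro _ h; exact absurd rfl h
    | cons a l ih =>
      intro hl _
      have ha := hl a (by simp)
      by_cases hl0 : l = []
      · subst hl0
        simpa using ha
      · have h2 := ih (fun q hq => hl q (List.mem_cons_of_mem a hq)) hl0
        rw [List.length_cons, List.prod_cons, pow_succ, mul_pow, mul_comm]
        exact Nat.mul_lt_mul'' ha h2
  have hne : n.primeFactorsList ≠ [] := by
    intro h0
    rw [h0] at hcon
    simp at hcon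
  have h2 := h1 n.primeFactorsList (fun q hq => h q (Nat.prime_of_mem_primeFactorsList hq)
    (Nat.dvd_of_mem_primeFactorsList hq)) hne
  rw [Nat.prod_primeFactorsList (by omega)] at h2
  have h3 : n ^ r ≤ x ^ r := Nat.pow_le_pow_left hn r
  have h4 : x ^ r ≤ x ^ n.primeFactorsList.length := Nat.pow_le_pow_right hx hcon.le
  omega

theorem boxA (T : ℕ) : ∃ K r : ℕ, 1 ≤ K ∧ 1 ≤ r ∧ (1 ≤ T → ∀ A : ℕ, ∀ᶠ N : ℕ in atTop,
    ∀ H : Fin T → Fin K → ℕ, Function.Injective (fun x : Fin T × Fin K => H x.1 x.2) →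
    (∀ g i, 1 ≤ H g i ∧ H g i ≤ A) →
    (∀ p : ℕ, p.Prime → p ≤ 2 * T * K → ∃ b : ℤ, ¬ (p : ℤ) ∣ b ∧ ∀ g i, ¬ (p : ℤ) ∣ (H g i : ℤ) * b + 1) →
    ∃ (S : Finset (Fin T)) (c : Fin T → Fin K), (T : ℝ) ≤ (18 / 5) * (S.card : ℝ) ∧
      (N : ℝ) / (Real.log N) ^ (2 * T * K + 1) ≤ (cntP r (S.image (fun g => H g (c g))) N : ℝ)) := by
  classical
  rcases Nat.eq_zero_or_pos T with rfl | hT
  · exact ⟨1, 1, le_rfl, le_rfl, fun h => absurd h (by norm_num)⟩
  obtain ⟨M, hM1, hM2⟩ := ceilM (14 * T + 1) (by omega)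
  obtain ⟨K₀, hK₀, δ, hδ, hmain⟩ := lamR0 (14 * T + 1) M (by omega) hM1
  have hK₀pos : 0 < K₀ := hK₀
  set r : ℕ := ⌈1 / δ⌉₊ + 1 with hr
  have hr1 : 1 ≤ r := by omega
  have hrδ : 1 ≤ r * δ := by
    have h1 : 1 / δ ≤ r := by
      rw [hr]
      push_cast
      linarith [Nat.le_ceil (1 / δ)]
    rwa [div_le_iff₀ hδ] at h1
  refine ⟨14 * K₀, r, by omega, hr1, fun _ A => ?_⟩
  obtain ⟨s₀, c₀, hc₀, hev⟩ := hmain (A + 1)
  -- the extra forms
  set P : ℕ := ((14 * T + 1) * K₀).factorial with hP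
  have hPpos : 0 < P := Nat.factorial_pos _
  have hP2 : 2 ≤ P := by
    have h1 : 2 ≤ (14 * T + 1) * K₀ := by nlinarith
    exact le_trans h1 (Nat.self_le_factorial _)
  have hlog : ∀ᶠ N : ℕ in atTop, 1 / c₀ ≤ Real.log N :=
    (Real.tendsto_log_atTop.comp tendsto_natCast_atTop_atTop).eventually_ge_atTop _
  filter_upwards [hev, hlog, eventually_ge_atTop (max 3 (P * K₀))] with N hN hNlog hN0 H hinj hHA hloc
  have hN3 : 3 ≤ N := (le_max_left _ _).trans hN0
  have hNP : P * K₀ ≤ N := (le_max_right _ _).trans hN0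
  have hNr : (3 : ℝ) ≤ N := by exact_mod_cast hN3
  have hL1 := Pool.Agent.Y827.RO.log_ge_one hN3
  -- the big family
  have hgd : ∀ g : Fin (14 * T + 1), ∀ h : (g : ℕ) < 14 * T, (g : ℕ) / 14 < T := fun g h => by omega
  have hidx : ∀ (g : Fin (14 * T + 1)) (i : Fin K₀), K₀ * ((g : ℕ) % 14) + (i : ℕ) < 14 * K₀ := by
    intro g i
    have h1 : (g : ℕ) % 14 + 1 ≤ 14 := by omega
    have h2 : K₀ * ((g : ℕ) % 14 + 1) ≤ K₀ * 14 := Nat.mul_le_mul_left _ h1
    have h3 := i.2
    rw [Nat.mul_add, mul_one] at h2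
    omega
  set H' : Fin (14 * T + 1) → Fin K₀ → ℤ × ℤ := fun g i =>
    if h : (g : ℕ) < 14 * T then ((H ⟨(g : ℕ) / 14, hgd g h⟩ ⟨K₀ * ((g : ℕ) % 14) + i, hidx g i⟩ : ℤ), 1)
    else (1, (P : ℤ) * (i : ℕ)) with hH'
  have hH1 : ∀ (g : Fin (14 * T + 1)) (i : Fin K₀) (h : (g : ℕ) < 14 * T), H' g i =
      ((H ⟨(g : ℕ) / 14, hgd g h⟩ ⟨K₀ * ((g : ℕ) % 14) + i, hidx g i⟩ : ℤ), 1) := by
    intro g i h
    simp only [hH', dif_pos h]
  have hH2 : ∀ (g : Fin (14 * T + 1)) (i : Fin K₀) (h : ¬ (g : ℕ) < 14 * T),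
      H' g i = (1, (P : ℤ) * (i : ℕ)) := by
    intro g i h
    simp only [hH', dif_neg h]
  have hPi : ∀ i : Fin K₀, (P : ℤ) * (i : ℕ) ≠ 1 := by
    intro i h
    have h1 : P * (i : ℕ) = 1 := by exact_mod_cast h
    have := Nat.eq_one_of_mul_eq_one_right h1
    omega
  have hinj' : Function.Injective (fun x : Fin (14 * T + 1) × Fin K₀ => H' x.1 x.2) := by
    rintro ⟨g, i⟩ ⟨g', i'⟩ he
    simp only at he
    by_cases h : (g : ℕ) < 14 * T
    · by_cases h' : (g' : ℕ) < 14 * T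
      · rw [hH1 g i h, hH1 g' i' h'] at he
        have h1 := (Prod.mk.inj he).1
        have h2 : (H ⟨(g : ℕ) / 14, hgd g h⟩ ⟨K₀ * ((g : ℕ) % 14) + i, hidx g i⟩) =
            (H ⟨(g' : ℕ) / 14, hgd g' h'⟩ ⟨K₀ * ((g' : ℕ) % 14) + i', hidx g' i'⟩) := by exact_mod_cast h1
        have h3 := @hinj (⟨(g : ℕ) / 14, hgd g h⟩, ⟨K₀ * ((g : ℕ) % 14) + i, hidx g i⟩)
          (⟨(g' : ℕ) / 14, hgd g' h'⟩, ⟨K₀ * ((g' : ℕ) % 14) + i', hidx g' i'⟩) h2
        have h4 := congrArg (fun z : Fin T × Fin (14 * K₀) => (z.1 : ℕ)) h3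
        have h5 := congrArg (fun z : Fin T × Fin (14 * K₀) => (z.2 : ℕ)) h3
        simp only at h4 h5
        have h6 : (K₀ * ((g : ℕ) % 14) + i) / K₀ = (g : ℕ) % 14 := by
          rw [Nat.mul_add_div hK₀pos, Nat.div_eq_of_lt i.2, add_zero]
        have h7 : (K₀ * ((g' : ℕ) % 14) + i') / K₀ = (g' : ℕ) % 14 := by
          rw [Nat.mul_add_div hK₀pos, Nat.div_eq_of_lt i'.2, add_zero]
        have h8 : (g : ℕ) % 14 = (g' : ℕ) % 14 := by rw [← h6, ← h7, h5]
        have h9 : (i : ℕ) = i' := by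
          rw [h8] at h5
          omega
        have h10 : (g : ℕ) = g' := by omega
        exact Prod.ext (Fin.ext h10) (Fin.ext h9)
      · rw [hH1 g i h, hH2 g' i' h'] at he
        exact absurd (Prod.mk.inj he).2.symm (hPi i')
    · by_cases h' : (g' : ℕ) < 14 * T
      · rw [hH2 g i h, hH1 g' i' h'] at he
        exact absurd (Prod.mk.inj he).2 (hPi i)
      · rw [hH2 g i h, hH2 g' i' h'] at he
        have h1 := (Prod.mk.inj he).2
        have h2 : (P : ℤ) ≠ 0 := by exact_mod_cast hPpos.ne'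
        have h3 : ((i : ℕ) : ℤ) = (i' : ℕ) := mul_left_cancel₀ h2 h1
        have h4 : (i : ℕ) = i' := by exact_mod_cast h3
        have h5 : (g : ℕ) = g' := by
          have := g.2
          have := g'.2
          omega
        exact Prod.ext (Fin.ext h5) (Fin.ext h4)
  have hAd : ∀ g i, Adf (A + 1) N (H' g i) := by
    intro g i
    by_cases h : (g : ℕ) < 14 * T
    · rw [hH1 g i h]
      obtain ⟨h1, h2⟩ := hHA ⟨(g : ℕ) / 14, hgd g h⟩ ⟨K₀ * ((g : ℕ) % 14) + i, hidx g i⟩
      set a := H ⟨(g : ℕ) / 14, hgd g h⟩ ⟨K₀ * ((g : ℕ) % 14) + i, hidx g i⟩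
      refine ⟨by positivity, ?_, ?_, isCoprime_one_right, ?_⟩
      · simp only
        rw [abs_of_nonneg (by positivity)]
        exact_mod_cast (by omega : a ≤ A + 1)
      · simp only [abs_one]
        exact_mod_cast (by omega : 1 ≤ N)
      · intro t ht _
        simp only
        have h3 : (1 : ℝ) ≤ a := by exact_mod_cast h1
        push_cast
        have h4 : 0 ≤ t := by linarith
        have h5 : t ≤ a * t := le_mul_of_one_le_left h4 h3
        linarith
    · rw [hH2 g i h]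
      refine ⟨one_ne_zero, ?_, ?_, isCoprime_one_left, ?_⟩
      · simp only [abs_one]
        have : (0 : ℤ) ≤ A := by positivity
        push_cast
        linarith
      · simp only
        rw [abs_of_nonneg (by positivity)]
        have h1 : P * (i : ℕ) ≤ P * K₀ := Nat.mul_le_mul_left _ i.2.le
        exact_mod_cast h1.trans hNP
      · intro t ht _
        simp only
        push_cast
        have h1 : (0 : ℝ) ≤ (P : ℝ) * (i : ℕ) := by positivity
        linarith
  have hloc' : ∀ p : ℕ, p.Prime → p ≤ (14 * T + 1) * K₀ → ∃ b : ℤ, ∀ g i,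
      ¬ (p : ℤ) ∣ (H' g i).1 * b + (H' g i).2 := by
    intro p hp hpT
    obtain ⟨b, hb0, hb⟩ := hloc p hp (hpT.trans (by nlinarith))
    refine ⟨b, fun g i => ?_⟩
    by_cases h : (g : ℕ) < 14 * T
    · rw [hH1 g i h]
      exact hb _ _
    · rw [hH2 g i h]
      simp only [one_mul]
      intro hd
      have hpP : (p : ℤ) ∣ (P : ℤ) * (i : ℕ) :=
        (Int.natCast_dvd_natCast.2 (hp.dvd_factorial.2 hpT)).mul_right _
      exact hb0 ((dvd_add_left hpP).1 hd)
  obtain ⟨s, S', σ, -, -, -, hS', hcard⟩ := hN H' hinj' hAd hloc'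
  set last : Fin (14 * T + 1) := Fin.last (14 * T) with hlast
  set S1 := S'.erase last with hS1
  have hS1lt : ∀ g ∈ S1, (g : ℕ) < 14 * T := by
    intro g hg
    have h1 : g ≠ last := (mem_erase.1 hg).1
    have h2 := g.2
    by_contra hcon
    push Not at hcon
    apply h1
    apply Fin.ext
    rw [hlast, Fin.val_last]
    omega
  set S : Finset (Fin T) := (univ : Finset (Fin T)).filter
    (fun u => ∃ g ∈ S', (g : ℕ) < 14 * T ∧ (g : ℕ) / 14 = u) with hS
  have hSc : ∀ u : Fin T, u ∈ S → ∃ g ∈ S', (g : ℕ) < 14 * T ∧ (g : ℕ) / 14 = u := by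
    intro u hu
    exact (mem_filter.1 hu).2
  set ch : Fin T → Fin (14 * T + 1) := fun u => if hu : u ∈ S then (hSc u hu).choose else last with hch
  have hch1 : ∀ u ∈ S, ch u ∈ S' ∧ ((ch u : Fin (14 * T + 1)) : ℕ) < 14 * T ∧ ((ch u : Fin (14 * T + 1)) : ℕ) / 14 = u := by
    intro u hu
    simp only [hch, dif_pos hu]
    have h1 := (hSc u hu).choose_spec
    exact ⟨h1.1, h1.2.1, h1.2.2⟩
  refine ⟨S, fun u => ⟨K₀ * ((ch u : ℕ) % 14) + (σ (ch u) : ℕ), hidx _ _⟩, ?_, ?_⟩
  · -- counting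
    have h1 : S1.card ≤ 14 * S.card := by
      set f : Fin (14 * T + 1) → Fin T := fun g =>
        if h : (g : ℕ) < 14 * T then ⟨(g : ℕ) / 14, hgd g h⟩ else ⟨0, hT⟩ with hf
      have hf1 : ∀ g ∈ S1, ((f g : Fin T) : ℕ) = (g : ℕ) / 14 := by
        intro g hg
        simp only [hf, dif_pos (hS1lt g hg)]
      have h2 : S1.card = ∑ u ∈ S, (S1.filter (fun g => f g = u)).card := by
        apply card_eq_sum_card_fiberwise
        intro g hg
        rw [mem_coe, hS, mem_filter]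
        exact ⟨mem_univ _, g, (mem_erase.1 hg).2, hS1lt g hg, (hf1 g hg).symm⟩
      have h3 : ∀ u ∈ S, (S1.filter (fun g => f g = u)).card ≤ 14 := by
        intro u _
        have h4 : (S1.filter (fun g => f g = u)).card ≤ (range 14).card := by
          apply card_le_card_of_injOn (fun g : Fin (14 * T + 1) => (g : ℕ) % 14)
          · intro g _
            rw [mem_coe, mem_range]
            exact Nat.mod_lt _ (by norm_num)
          · intro g hg g' hg' he
            rw [mem_coe, mem_filter] at hg hg'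
            simp only at he
            apply Fin.ext
            have e1 := hf1 g hg.1
            have e2 := hf1 g' hg'.1
            rw [hg.2] at e1
            rw [hg'.2] at e2
            omega
        rwa [card_range] at h4
      calc S1.card = ∑ u ∈ S, (S1.filter (fun g => f g = u)).card := h2
        _ ≤ ∑ _u ∈ S, 14 := sum_le_sum h3
        _ = 14 * S.card := by rw [sum_const, smul_eq_mul, mul_comm]
    have h2 : S'.card ≤ S1.card + 1 := by
      have := Finset.pred_card_le_card_erase (s := S') (a := last)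
      rw [← hS1] at this
      omega
    have h3 : (S'.card : ℝ) ≤ 14 * S.card + 1 := by exact_mod_cast h2.trans (by omega : S1.card + 1 ≤ 14 * S.card + 1)
    have h4 : ((14 * T + 1 : ℕ) : ℝ) ≤ 18 / 5 * (14 * S.card + 1) := by
      refine hM2.trans (mul_le_mul_of_nonneg_left ?_ (by norm_num))
      have : ((M + 1 : ℕ) : ℝ) ≤ S'.card := by exact_mod_cast hS'
      linarith
    push_cast at h4
    have h5 : ((5 * T : ℕ) : ℝ) < ((18 * S.card + 1 : ℕ) : ℝ) := by
      push_cast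
      linarith
    have h6 : 5 * T ≤ 18 * S.card := by
      have : 5 * T < 18 * S.card + 1 := by exact_mod_cast h5
      omega
    have h7 : ((5 * T : ℕ) : ℝ) ≤ ((18 * S.card : ℕ) : ℝ) := by exact_mod_cast h6
    push_cast at h7
    linarith
  · have h1 : (Rs H' δ s S' σ N).card ≤ cntP r (S.image (fun u => H u
        ⟨K₀ * ((ch u : ℕ) % 14) + (σ (ch u) : ℕ), hidx _ _⟩)) N := by
      unfold cntP
      apply card_le_card
      intro n hn
      unfold Rs at hn
      rw [mem_filter] at hn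
      obtain ⟨hn1, -, -, hn3, hn4⟩ := hn
      have hn1' := mem_Icc.1 hn1
      have hrough : ∀ q : ℕ, q.Prime → q ∣ n → N < q ^ r := by
        intro q hq hd
        have h2 := hn3 last ⟨0, hK₀pos⟩ q hq
        rw [hH2 last _ (by rw [hlast, Fin.val_last]; omega)] at h2
        simp only [one_mul, Nat.cast_zero, mul_zero, add_zero] at h2
        have h3 : ¬ Real.log q ≤ δ * Real.log N := fun h => h2 h (by exact_mod_cast hd)
        push Not at h3
        have hq0 : (0 : ℝ) < q := by exact_mod_cast hq.pos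
        have hN0' : (0 : ℝ) < N := by linarith
        have h4 : Real.log N < Real.log ((q : ℝ) ^ r) := by
          rw [Real.log_pow]
          have h5 : (r : ℝ) * (δ * Real.log N) < r * Real.log q :=
            mul_lt_mul_of_pos_left h3 (by exact_mod_cast hr1)
          have h6 : Real.log N ≤ (r * δ) * Real.log N := le_mul_of_one_le_left (by linarith) hrδ
          linarith
        have h5 := (Real.log_lt_log_iff hN0' (by positivity)).1 h4
        exact_mod_cast h5
      rw [mem_filter]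
      refine ⟨hn1, few_factors hr1 (by omega) hn1'.1 hn1'.2 hrough, hrough, ?_⟩
      intro a ha
      obtain ⟨u, hu, rfl⟩ := mem_image.1 ha
      obtain ⟨a1, a2, a3⟩ := hch1 u hu
      have h2 := hn4 (ch u) a1
      rw [hH1 (ch u) (σ (ch u)) a2] at h2
      simp only at h2
      have h3 : (⟨((ch u : Fin (14 * T + 1)) : ℕ) / 14, hgd _ a2⟩ : Fin T) = u := Fin.ext a3
      rw [h3] at h2
      have h4 : ((H u ⟨K₀ * ((ch u : ℕ) % 14) + (σ (ch u) : ℕ), hidx _ _⟩ : ℤ) * (n : ℤ) + 1).toNat =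
          H u ⟨K₀ * ((ch u : ℕ) % 14) + (σ (ch u) : ℕ), hidx _ _⟩ * n + 1 := by
        have : ((H u ⟨K₀ * ((ch u : ℕ) % 14) + (σ (ch u) : ℕ), hidx _ _⟩ : ℤ) * (n : ℤ) + 1) =
          ((H u ⟨K₀ * ((ch u : ℕ) % 14) + (σ (ch u) : ℕ), hidx _ _⟩ * n + 1 : ℕ) : ℤ) := by push_cast; ring
        rw [this, Int.toNat_natCast]
      rw [h4] at h2
      exact h2
    refine le_trans ?_ (hcard.trans (by exact_mod_cast h1))
    have h2 : 1 ≤ c₀ * Real.log N := by
      rw [div_le_iff₀ hc₀] at hNlog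
      linarith
    have hexp : (14 * T + 1) * K₀ + 2 ≤ 2 * T * (14 * K₀) + 1 := by nlinarith
    have hNr0 : (0 : ℝ) ≤ N := by linarith
    calc (N : ℝ) / Real.log N ^ (2 * T * (14 * K₀) + 1)
        ≤ N / Real.log N ^ ((14 * T + 1) * K₀ + 2) :=
          div_le_div_of_nonneg_left hNr0 (by positivity) (pow_le_pow_right₀ hL1 hexp)
      _ = (N / Real.log N ^ ((14 * T + 1) * K₀ + 1)) / Real.log N := by rw [pow_succ, ← div_div]
      _ ≤ c₀ * (N / Real.log N ^ ((14 * T + 1) * K₀ + 1)) := by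
        rw [div_le_iff₀ (by linarith)]
        have h3 : 0 ≤ (N : ℝ) / Real.log N ^ ((14 * T + 1) * K₀ + 1) := by positivity
        nlinarith

end Pool.Agent.J6H13.AP
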