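import Mathlib
import Pool.Agent.J6H13.AP.Box

/-! The proportion of the tuples of multipliers. -/

set_option autoImplicit false

namespace Pool.Agent.J6H13.AP

open Finset Filter
open Pool.Agent.Y827.RO Pool.Agent.Y827.GS
open Pool.Agent.W25.QL
open Pool.Agent.Y827.LS

open Classical in
theorem formsP (k : ℕ) (ε : ℝ) (hε : 0 < ε) : ∃ z n₀ r C : ℕ, ∀ A : ℕ,
    ∀ᶠ N : ℕ in atTop, ∀ V : Finset ℕ, (∀ a ∈ V, 1 ≤ a ∧ a ≤ A) →
    (∀ p : ℕ, p.Prime → p ≤ z → ∃ b : ℤ, ¬ (p : ℤ) ∣ b ∧ ∀ a ∈ V, ¬ (p : ℤ) ∣ (a : ℤ) * b + 1) → n₀ ≤ V.card →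
    (dn k - ε) * (V.card : ℝ) ^ (k + 1) ≤ (((Fintype.piFinset (fun _ : Fin (k + 1) => V)).filter
      (fun f => Function.Injective f ∧ (N : ℝ) / (Real.log N) ^ C ≤ (cntP r (univ.image f) N : ℝ))).card : ℝ) := by
  choose Kf rf hKf1 hrf1 hKf using boxA
  obtain ⟨T, M, hT, hM⟩ := main_gen (lam := 18 / 5) (by norm_num) k (dn k)
    (dn_le k) (hcountL k) ε hε Kf
  obtain ⟨n₀, hn₀⟩ := hM Unit
  set C : ℕ := ∑ T' ∈ range (M + 1), (2 * T' * Kf T' + 1) with hCdef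
  set r : ℕ := ∑ T' ∈ range (M + 1), rf T' with hrdef
  refine ⟨∑ T' ∈ range (M + 1), 2 * T' * Kf T', n₀, r, C, ?_⟩
  intro A
  have hev : ∀ᶠ N : ℕ in atTop, ∀ T' : Fin (M + 1), 1 ≤ (T' : ℕ) →
      ∀ H : Fin (T' : ℕ) → Fin (Kf T') → ℕ,
      Function.Injective (fun z : Fin (T' : ℕ) × Fin (Kf T') => H z.1 z.2) →
      (∀ g i, 1 ≤ H g i ∧ H g i ≤ A) →
      (∀ p : ℕ, p.Prime → p ≤ 2 * T' * Kf T' → ∃ b : ℤ, ¬ (p : ℤ) ∣ b ∧ ∀ g i,
        ¬ (p : ℤ) ∣ (H g i : ℤ) * b + 1) →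
      ∃ (S : Finset (Fin (T' : ℕ))) (cc : Fin (T' : ℕ) → Fin (Kf T')),
        ((T' : ℕ) : ℝ) ≤ (18 / 5) * (S.card : ℝ) ∧
        (N : ℝ) / (Real.log N) ^ (2 * T' * Kf T' + 1) ≤
          (cntP (rf T') (S.image (fun g => H g (cc g))) N : ℝ) := by
    rw [eventually_all]
    intro T'
    by_cases h0 : 1 ≤ (T' : ℕ)
    swap
    · exact Eventually.of_forall fun x h => absurd h h0
    filter_upwards [hKf T' h0 A] with N hN _ H hinj hAd hadm
    exact hN H hinj hAd hadm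
  filter_upwards [hev, eventually_ge_atTop 3] with N hN hN3
  intro V hVA hVadm hVn
  have hL1 := Pool.Agent.Y827.RO.log_ge_one hN3
  have key := hn₀ ℕ V (fun _ => ())
    (fun F => (N : ℝ) / (Real.log N) ^ C ≤ (cntP r F N : ℝ)) hVn
    (fun F F' hF h => h.trans (by exact_mod_cast cntP_anti hF N)) (by
      intro T' hT'1 hT'M H hHV hHinj _
      have hadm : ∀ p : ℕ, p.Prime → p ≤ 2 * T' * Kf T' → ∃ b : ℤ, ¬ (p : ℤ) ∣ b ∧ ∀ g i,
          ¬ (p : ℤ) ∣ (H g i : ℤ) * b + 1 := by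
        intro p hp hpT
        obtain ⟨b, hb0, hb⟩ := hVadm p hp (hpT.trans
          (Finset.single_le_sum (f := fun T' => 2 * T' * Kf T') (fun _ _ => Nat.zero_le _)
                (mem_range.2 (by omega))))
        exact ⟨b, hb0, fun g i => hb _ (hHV g i)⟩
      obtain ⟨S, cc, hS, hcc⟩ := hN ⟨T', by omega⟩ hT'1 H hHinj (fun g i => hVA _ (hHV g i)) hadm
      refine ⟨S, cc, hS, le_trans ?_ (hcc.trans ?_)⟩
      · refine div_le_div_of_nonneg_left (Nat.cast_nonneg _) (by positivity)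
          (pow_le_pow_right₀ hL1 ?_)
        exact single_le_sum (f := fun T' => 2 * T' * Kf T' + 1) (fun _ _ => Nat.zero_le _)
          (mem_range.2 (by omega))
      · exact_mod_cast cntP_mono (single_le_sum (f := fun T' => rf T') (fun _ _ => Nat.zero_le _)
          (mem_range.2 (by omega))) _ _)
  refine key.trans (le_of_eq ?_)
  congr 2

end Pool.Agent.J6H13.AP
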